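import Mathlib

set_option autoImplicit false

open MeasureTheory Set Filter Topology

namespace Pool.Agent.Helper56.SepDeriv

/-- The product probability space. -/
abbrev Om := ℕ → unitInterval

/-- The product probability measure. -/
noncomputable def mu : Measure Om :=
  Measure.infinitePi (fun _ : ℕ => (volume : Measure unitInterval))

instance : IsProbabilityMeasure mu := by
  unfold mu; infer_instance

lemma measurable_resample (n : ℕ) :
    Measurable (fun p : Om × unitInterval => Function.update p.1 n p.2) := by
  rw [measurable_pi_iff]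
  intro i
  by_cases h : i = n
  · subst h
    simp only [Function.update_self]
    exact measurable_snd
  · simp only [Function.update_of_ne h]
    exact (measurable_pi_apply i).comp measurable_fst

lemma mu_resample (n : ℕ) :
    (mu.prod (volume : Measure unitInterval)).map
      (fun p : Om × unitInterval => Function.update p.1 n p.2) = mu := by
  classical
  apply Measure.eq_infinitePi
  intro s t ht
  rw [Measure.map_apply (measurable_resample n)
    (MeasurableSet.pi s.countable_toSet (fun i _ => ht i))]
  by_cases hn : n ∈ s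
  · have hpre : (fun p : Om × unitInterval => Function.update p.1 n p.2) ⁻¹' (Set.pi s t)
        = (Set.pi (s.erase n) t) ×ˢ (t n) := by
      ext p
      simp only [mem_preimage, Set.mem_pi, Finset.mem_coe, mem_prod, Finset.mem_erase]
      constructor
      · intro h
        refine ⟨fun i hi => ?_, ?_⟩
        · have := h i hi.2
          rwa [Function.update_of_ne hi.1] at this
        · have := h n hn
          rwa [Function.update_self] at this
      · rintro ⟨h1, h2⟩ i hi
        by_cases hin : i = n
        · subst hin; rwa [Function.update_self]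
        · rw [Function.update_of_ne hin]; exact h1 i ⟨hin, hi⟩
    rw [hpre, Measure.prod_prod]
    rw [show (mu ((↑(s.erase n) : Set ℕ).pi t)) = ∏ i ∈ s.erase n, volume (t i) from
      Measure.infinitePi_pi _ (fun i _ => ht i)]
    rw [Finset.prod_erase_mul _ _ hn]
  · have hpre : (fun p : Om × unitInterval => Function.update p.1 n p.2) ⁻¹' (Set.pi s t)
        = (Set.pi s t) ×ˢ (Set.univ) := by
      ext p
      simp only [mem_preimage, Set.mem_pi, Finset.mem_coe, mem_prod, mem_univ, and_true]
      constructor
      · intro h i hi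
        have := h i hi
        rwa [Function.update_of_ne (by rintro rfl; exact hn hi)] at this
      · intro h i hi
        rw [Function.update_of_ne (by rintro rfl; exact hn hi)]
        exact h i hi
    rw [hpre, Measure.prod_prod]
    rw [show (mu ((↑s : Set ℕ).pi t)) = ∏ i ∈ s, volume (t i) from
      Measure.infinitePi_pi _ (fun i _ => ht i)]
    simp

lemma null_of_resample (n : ℕ) (B : Set Om) (hB : MeasurableSet B)
    (h : ∀ t : Om, volume {s : unitInterval | Function.update t n s ∈ B} = 0) : mu B = 0 := by
  rw [← mu_resample n, Measure.map_apply (measurable_resample n) hB,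
    Measure.prod_apply (measurable_resample n hB)]
  rw [lintegral_eq_zero_iff']
  · exact Filter.Eventually.of_forall (fun t => h t)
  · exact (measurable_measure_prodMk_left (measurable_resample n hB)).aemeasurable

variable {X : Type*} [NormedAddCommGroup X] [NormedSpace ℝ X]

/-- The random vector. -/
noncomputable def W (h : ℕ → X) (t : Om) : X := ∑' n, ((t n : unitInterval) : ℝ) • h n

variable [CompleteSpace X]

lemma norm_coef_smul_le (h : ℕ → X) (t : Om) (n : ℕ) :
    ‖((t n : unitInterval) : ℝ) • h n‖ ≤ ‖h n‖ := by
  rw [norm_smul, Real.norm_eq_abs, abs_of_nonneg (t n).2.1]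
  exact mul_le_of_le_one_left (norm_nonneg _) (t n).2.2

lemma summable_W (h : ℕ → X) (hh : Summable (fun n => ‖h n‖)) (t : Om) :
    Summable (fun n => ((t n : unitInterval) : ℝ) • h n) :=
  Summable.of_norm_bounded hh (norm_coef_smul_le h t)

lemma continuous_W (h : ℕ → X) (hh : Summable (fun n => ‖h n‖)) : Continuous (W h) := by
  unfold W
  refine continuous_tsum (fun n => ?_) hh (fun n t => norm_coef_smul_le h t n)
  fun_prop

lemma norm_W_le (h : ℕ → X) (hh : Summable (fun n => ‖h n‖)) (t : Om) :
    ‖W h t‖ ≤ ∑' n, ‖h n‖ := by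
  unfold W
  exact tsum_of_norm_bounded hh.hasSum (norm_coef_smul_le h t)

lemma W_update (h : ℕ → X) (hh : Summable (fun n => ‖h n‖)) (t : Om) (n : ℕ)
    (s : unitInterval) :
    W h (Function.update t n s) = W h (Function.update t n 0) + (s : ℝ) • h n := by
  unfold W
  rw [(summable_W h hh (Function.update t n s)).tsum_eq_add_tsum_ite n,
    (summable_W h hh (Function.update t n 0)).tsum_eq_add_tsum_ite n]
  simp only [Function.update_self]
  have : (fun b : ℕ => if b = n then (0 : X) else
      ((Function.update t n s b : unitInterval) : ℝ) • h b)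
      = (fun b : ℕ => if b = n then (0 : X) else
      ((Function.update t n 0 b : unitInterval) : ℝ) • h b) := by
    funext b
    by_cases hb : b = n
    · simp [hb]
    · simp [hb]
  rw [this]
  simp [add_comm]

lemma ae_unitInterval_of_ae {p : ℝ → Prop} (h : ∀ᵐ r : ℝ, p r) :
    ∀ᵐ s : unitInterval, p (s : ℝ) := by
  have h2 : ∀ᵐ r ∂(volume.restrict unitInterval), p r := ae_restrict_of_ae h
  have := (measurePreserving_subtype_coe (μa := (volume : Measure ℝ)) (s := unitInterval)
    measurableSet_Icc).quasiMeasurePreserving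
  exact this.ae h2

lemma ae_lineDiff (h : ℕ → X) (hh : Summable (fun n => ‖h n‖)) (x : X) (n : ℕ) :
    ∀ᵐ t ∂mu, LineDifferentiableAt ℝ (fun y : X => ‖y‖) (x + W h t) (h n) := by
  borelize X
  have hmeas : MeasurableSet
      {t : Om | LineDifferentiableAt ℝ (fun y : X => ‖y‖) (x + W h t) (h n)} := by
    have h1 : MeasurableSet {z : X | LineDifferentiableAt ℝ (fun y : X => ‖y‖) z (h n)} :=
      measurableSet_lineDifferentiableAt continuous_norm
    have h2 : Measurable (fun t : Om => x + W h t) :=
      (continuous_const.add (continuous_W h hh)).measurable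
    exact h2 h1
  rw [ae_iff]
  apply null_of_resample n _ hmeas.compl
  intro t
  have key : ∀ᵐ r : ℝ, DifferentiableAt ℝ
      (fun r : ℝ => ‖(x + W h (Function.update t n 0)) + r • h n‖) r := by
    have hl : LipschitzWith ‖h n‖₊
        (fun r : ℝ => ‖(x + W h (Function.update t n 0)) + r • h n‖) := by
      apply LipschitzWith.of_dist_le_mul
      intro a b
      rw [Real.dist_eq, Real.dist_eq]
      refine (abs_norm_sub_norm_le _ _).trans ?_
      have : x + W h (Function.update t n 0) + a • h n - (x + W h (Function.update t n 0) + b • h n)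
        = (a - b) • h n := by rw [sub_smul]; abel
      rw [this, norm_smul, Real.norm_eq_abs, mul_comm]
      rfl
    exact hl.ae_differentiableAt_real
  have key2 := ae_unitInterval_of_ae key
  rw [ae_iff] at key2
  refine measure_mono_null ?_ key2
  intro s hs
  simp only [Set.mem_ofPred_eq] at hs ⊢
  intro hd
  apply hs
  show DifferentiableAt ℝ (fun r : ℝ => ‖x + W h (Function.update t n s) + r • h n‖) 0
  rw [W_update h hh t n s]
  have : (fun r : ℝ => ‖x + (W h (Function.update t n 0) + (s : ℝ) • h n) + r • h n‖)
      = (fun r : ℝ => ‖(x + W h (Function.update t n 0)) + r • h n‖) ∘ (fun r : ℝ => (s : ℝ) + r) := by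
    funext r
    simp only [Function.comp]
    congr 1
    rw [add_smul]; abel
  rw [this]
  apply DifferentiableAt.comp
  · simpa using hd
  · fun_prop

/-- If the norm is differentiable along a dense sequence of directions, it is Gateaux
differentiable. -/
lemma gateaux_of_dense (x : X) (u : ℕ → X) (hu : DenseRange u)
    (hd : ∀ n, LineDifferentiableAt ℝ (fun y : X => ‖y‖) x (u n)) :
    ∃ f : X →L[ℝ] ℝ, ‖f‖ ≤ 1 ∧ f x = ‖x‖ ∧
      ∀ v, HasLineDerivAt ℝ (fun y : X => ‖y‖) (f v) x v := by
  obtain ⟨f, hf1, hfx⟩ := exists_dual_vector'' ℝ x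
  have hfx' : f x = ‖x‖ := by simpa using hfx
  have hle : ∀ z : X, f z ≤ ‖z‖ := fun z =>
    (le_abs_self _).trans ((f.le_opNorm z).trans
      (by nlinarith [norm_nonneg z]))
  refine ⟨f, hf1, hfx', ?_⟩
  have hu' : ∀ n, HasLineDerivAt ℝ (fun y : X => ‖y‖) (f (u n)) x (u n) := by
    intro n
    have h1 := (hd n).hasLineDerivAt
    have h1' : HasDerivAt (fun s : ℝ => ‖x + s • u n‖) (lineDeriv ℝ (fun y : X => ‖y‖) x (u n)) 0 := h1
    have h2 : HasDerivAt (fun s : ℝ => ‖x + s • u n‖ - s * f (u n))
        (lineDeriv ℝ (fun y : X => ‖y‖) x (u n) - f (u n)) 0 := by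
      have h5 : HasDerivAt (fun s : ℝ => s * f (u n)) (f (u n)) 0 := by
        simpa using (hasDerivAt_id (0:ℝ)).mul_const (f (u n))
      exact h1'.sub h5
    have h3 : IsLocalMin (fun s : ℝ => ‖x + s • u n‖ - s * f (u n)) 0 := by
      apply Filter.Eventually.of_forall
      intro s
      have := hle (x + s • u n)
      simp only [map_add, map_smul, smul_eq_mul] at this
      simp only [zero_smul, add_zero, zero_mul, sub_zero]
      rw [← hfx']
      linarith
    have h4 := h3.hasDerivAt_eq_zero h2
    have : lineDeriv ℝ (fun y : X => ‖y‖) x (u n) = f (u n) := by linarith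
    rw [← this]
    exact h1
  intro v
  have goal : HasDerivAt (fun s : ℝ => ‖x + s • v‖) (f v) 0 := by
    rw [hasDerivAt_iff_isLittleO, Asymptotics.isLittleO_iff]
    intro ε hε
    obtain ⟨n, hn⟩ := hu.exists_dist_lt v (show (0:ℝ) < ε / 4 by positivity)
    have h1 : HasDerivAt (fun s : ℝ => ‖x + s • u n‖) (f (u n)) 0 := hu' n
    rw [hasDerivAt_iff_isLittleO, Asymptotics.isLittleO_iff] at h1
    filter_upwards [h1 (show (0:ℝ) < ε / 2 by positivity)] with s hs
    simp only [sub_zero, zero_smul, add_zero, smul_eq_mul, Real.norm_eq_abs] at hs ⊢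
    have e1 : |‖x + s • v‖ - ‖x + s • u n‖| ≤ |s| * (ε / 4) := by
      refine (abs_norm_sub_norm_le _ _).trans ?_
      have : x + s • v - (x + s • u n) = s • (v - u n) := by rw [smul_sub]; abel
      rw [this, norm_smul, Real.norm_eq_abs]
      rw [dist_eq_norm] at hn
      exact mul_le_mul_of_nonneg_left hn.le (abs_nonneg _)
    have e2 : |s * f v - s * f (u n)| ≤ |s| * (ε / 4) := by
      rw [← mul_sub, abs_mul, ← map_sub]
      rw [dist_eq_norm] at hn
      have : |f (v - u n)| ≤ ‖v - u n‖ := by
        have := f.le_opNorm (v - u n)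
        rw [Real.norm_eq_abs] at this
        nlinarith [norm_nonneg (v - u n)]
      exact mul_le_mul_of_nonneg_left (this.trans hn.le) (abs_nonneg _)
    rw [abs_le] at hs e1 e2 ⊢
    constructor <;> nlinarith [abs_nonneg s]
  exact goal

lemma lineDiff_of_smul {x v : X} {c : ℝ} (hc : c ≠ 0)
    (h : LineDifferentiableAt ℝ (fun y : X => ‖y‖) x (c • v)) :
    LineDifferentiableAt ℝ (fun y : X => ‖y‖) x v := by
  have h1 : DifferentiableAt ℝ (fun s : ℝ => ‖x + s • (c • v)‖) 0 := h
  show DifferentiableAt ℝ (fun s : ℝ => ‖x + s • v‖) 0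
  have : (fun s : ℝ => ‖x + s • v‖) = (fun s : ℝ => ‖x + s • (c • v)‖) ∘ (fun s : ℝ => c⁻¹ * s) := by
    funext s
    simp only [Function.comp]
    rw [smul_smul]
    congr 3
    field_simp
  rw [this]
  apply DifferentiableAt.comp
  · simpa using h1
  · fun_prop

end Pool.Agent.Helper56.SepDeriv
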