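import Mathlib
import Pool.Agent.Helper56.SepDeriv1

set_option autoImplicit false

open MeasureTheory Set Filter Topology

namespace Pool.Agent.Helper56.SepDeriv

variable {X : Type*} [NormedAddCommGroup X] [NormedSpace ℝ X]

/-- The set of Gateaux derivatives of the norm at unit vectors. -/
def DD (X : Type*) [NormedAddCommGroup X] [NormedSpace ℝ X] : Set (X →L[ℝ] ℝ) :=
  {f : X →L[ℝ] ℝ | ∃ x : X, ‖x‖ = 1 ∧ ∀ v : X, HasLineDerivAt ℝ (fun y : X => ‖y‖) (f v) x v}

lemma mem_DD_of_ne_zero {x : X} (hx : x ≠ 0) {f : X →L[ℝ] ℝ}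
    (hf : ∀ v : X, HasLineDerivAt ℝ (fun y : X => ‖y‖) (f v) x v) : f ∈ DD X := by
  have hnx : ‖x‖ ≠ 0 := norm_ne_zero_iff.mpr hx
  refine ⟨‖x‖⁻¹ • x, by rw [norm_smul, norm_inv, norm_norm, inv_mul_cancel₀ hnx], ?_⟩
  intro v
  have h1 : HasDerivAt (fun s : ℝ => ‖x + s • (‖x‖ • v)‖) (f (‖x‖ • v)) 0 := hf (‖x‖ • v)
  show HasDerivAt (fun s : ℝ => ‖‖x‖⁻¹ • x + s • v‖) (f v) 0
  have h2 : (fun s : ℝ => ‖‖x‖⁻¹ • x + s • v‖) = (fun s : ℝ => ‖x‖⁻¹ * ‖x + s • (‖x‖ • v)‖) := by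
    funext s
    have : ‖x‖⁻¹ • x + s • v = ‖x‖⁻¹ • (x + s • (‖x‖ • v)) := by
      rw [smul_add, smul_smul, smul_smul]
      congr 2
      field_simp
    rw [this, norm_smul, norm_inv, norm_norm]
  rw [h2]
  have h3 := h1.const_mul (‖x‖⁻¹)
  have h4 : ‖x‖⁻¹ * f (‖x‖ • v) = f v := by
    rw [map_smul, smul_eq_mul, ← mul_assoc, inv_mul_cancel₀ hnx, one_mul]
  rwa [h4] at h3

lemma ne_zero_of_lineDiff {v : X} (hv : v ≠ 0)
    {x : X} (h : LineDifferentiableAt ℝ (fun y : X => ‖y‖) x v) : x ≠ 0 := by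
  rintro rfl
  have h1 : DifferentiableAt ℝ (fun s : ℝ => ‖(0:X) + s • v‖) 0 := h
  have h2 : (fun s : ℝ => ‖(0:X) + s • v‖) = (fun s : ℝ => |s| * ‖v‖) := by
    funext s
    rw [zero_add, norm_smul, Real.norm_eq_abs]
  rw [h2] at h1
  have hnv : ‖v‖ ≠ 0 := norm_ne_zero_iff.mpr hv
  have h3 : DifferentiableAt ℝ (fun s : ℝ => |s|) 0 := by
    have := h1.mul_const (‖v‖⁻¹)
    refine this.congr_of_eventuallyEq (Filter.Eventually.of_forall (fun s => ?_))
    simp only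
    field_simp
  exact not_differentiableAt_abs_zero h3

/-- A near-minimising point. -/
lemma exists_near_min (C : Set X) (hC : C.Nonempty) (f : X → ℝ) (hf : ∀ x, 0 ≤ f x) (δ : ℝ)
    (hδ : 0 < δ) : ∃ z ∈ C, ∀ z' ∈ C, f z ≤ f z' + δ := by
  have hne : (f '' C).Nonempty := hC.image f
  have hbd : BddBelow (f '' C) := ⟨0, by rintro _ ⟨x, _, rfl⟩; exact hf x⟩
  obtain ⟨a, ⟨z, hz, rfl⟩, ha⟩ := exists_lt_of_csInf_lt hne
    (show sInf (f '' C) < sInf (f '' C) + δ by linarith)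
  refine ⟨z, hz, fun z' hz' => ?_⟩
  have := csInf_le hbd ⟨z', hz', rfl⟩
  linarith

variable [CompleteSpace X]

/-- Infinite dyadic convex combinations stay in a closed convex bounded set. -/
lemma dyadic_mem {C : Set X} (hc : Convex ℝ C) (hcl : IsClosed C) (w : ℕ → X)
    (hw : ∀ n, w n ∈ C) (S : X)
    (hS : Tendsto (fun m => ∑ k ∈ Finset.range m, ((1:ℝ)/2)^(k+1) • w k) atTop (𝓝 S)) :
    S ∈ C := by
  have key : ∀ m : ℕ, ∀ c ∈ C,
      (∑ k ∈ Finset.range m, ((1:ℝ)/2)^(k+1) • w k) + ((1:ℝ)/2)^m • c ∈ C := by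
    intro m
    induction m with
    | zero => intro c hcC; simpa using hcC
    | succ m ih =>
      intro c hcC
      have hmid : ((1:ℝ)/2) • w m + ((1:ℝ)/2) • c ∈ C :=
        hc (hw m) hcC (by norm_num) (by norm_num) (by norm_num)
      have := ih _ hmid
      rw [Finset.sum_range_succ]
      convert this using 1
      rw [smul_add, smul_smul, smul_smul, ← pow_succ, add_assoc]
  have hlim : Tendsto (fun m => (∑ k ∈ Finset.range m, ((1:ℝ)/2)^(k+1) • w k)
      + ((1:ℝ)/2)^m • w 0) atTop (𝓝 (S + (0:ℝ) • w 0)) := by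
    apply hS.add
    apply Tendsto.smul_const
    exact tendsto_pow_atTop_nhds_zero_of_lt_one (by norm_num) (by norm_num)
  rw [zero_smul, add_zero] at hlim
  exact hcl.mem_of_tendsto hlim (Filter.Eventually.of_forall (fun m => key m _ (hw 0)))

/-- Simons type argument: a nonnegative function `φ` within `δ` of the norm cannot have at each point
a subgradient which tends to zero along the sequence `ξ`, if `f0 ≥ α` along `ξ`. -/
theorem simons_type (φ : X → ℝ) (δ α : ℝ) (hα : 0 < α) (hδ : 8 * δ ≤ α)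
    (hφ0 : ∀ x, 0 ≤ φ x) (hφ1 : ∀ x, ‖x‖ ≤ φ x + δ) (hφ2 : φ 0 ≤ δ)
    (ξ : ℕ → X) (hξ : ∀ n, ‖ξ n‖ ≤ 1) (f0 : X →L[ℝ] ℝ) (hf0 : ‖f0‖ ≤ 1)
    (hf0ξ : ∀ n, α ≤ f0 (ξ n))
    (hsub : ∀ y : X, ∃ g : X →L[ℝ] ℝ, (∀ x, φ y + g (x - y) ≤ φ x) ∧
      Tendsto (fun n => g (ξ n)) atTop (𝓝 0)) : False := by
  -- the sets C n
  set C : ℕ → Set X := fun n => closedConvexHull ℝ (ξ '' {k | n ≤ k}) with hCdef
  have hCconv : ∀ n, Convex ℝ (C n) := fun n => convex_closedConvexHull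
  have hCcl : ∀ n, IsClosed (C n) := fun n => isClosed_closedConvexHull
  have hCmem : ∀ n k, n ≤ k → ξ k ∈ C n := fun n k hk =>
    subset_closedConvexHull (mem_image_of_mem ξ hk)
  have hCne : ∀ n, (C n).Nonempty := fun n => ⟨ξ n, hCmem n n le_rfl⟩
  have hCanti : ∀ n m, n ≤ m → C m ⊆ C n := by
    intro n m hnm
    apply closedConvexHull_min _ (hCconv n) (hCcl n)
    rintro _ ⟨k, hk, rfl⟩
    exact hCmem n k (le_trans hnm hk)
  have hCball : ∀ n, C n ⊆ Metric.closedBall 0 1 := by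
    intro n
    apply closedConvexHull_min _ (convex_closedBall 0 1) Metric.isClosed_closedBall
    rintro _ ⟨k, hk, rfl⟩
    simpa using hξ k
  have hCf0 : ∀ n, ∀ z ∈ C n, α ≤ f0 z := by
    intro n
    have : C n ⊆ {z | α ≤ f0 z} := by
      apply closedConvexHull_min
      · rintro _ ⟨k, hk, rfl⟩
        exact hf0ξ k
      · exact convex_halfSpace_ge f0.isLinear α
      · exact isClosed_le continuous_const f0.continuous
    exact fun z hz => this hz
  have hη : 0 < α / 8 := by positivity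
  -- choice of z
  have hchoice : ∀ (n : ℕ) (y : X), ∃ z ∈ C n, ∀ z' ∈ C n,
      φ (y + ((1:ℝ)/2)^n • z) ≤ φ (y + ((1:ℝ)/2)^n • z') + ((1:ℝ)/4)^n * (α/8) := by
    intro n y
    exact exists_near_min (C n) (hCne n) (fun z => φ (y + ((1:ℝ)/2)^n • z)) (fun z => hφ0 _) _
      (by positivity)
  choose Z hZC hZmin using hchoice
  let y : ℕ → X := fun n => Nat.rec (0 : X) (fun n yn => yn + ((1:ℝ)/2)^(n+1) • Z n yn) n
  have hy0 : y 0 = 0 := rfl
  have hysucc : ∀ n, y (n+1) = y n + ((1:ℝ)/2)^(n+1) • Z n (y n) := fun n => rfl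
  set z : ℕ → X := fun n => Z n (y n) with hzdef
  have hzC : ∀ n, z n ∈ C n := fun n => hZC n (y n)
  have hzn : ∀ n, ‖z n‖ ≤ 1 := fun n => by simpa using hCball n (hzC n)
  have hysum : ∀ n, y n = ∑ k ∈ Finset.range n, ((1:ℝ)/2)^(k+1) • z k := by
    intro n
    induction n with
    | zero => simp [hy0]
    | succ n ih => rw [hysucc, Finset.sum_range_succ, ← ih]
  have hsumm : Summable (fun k => ((1:ℝ)/2)^(k+1) • z k) := by
    have hg : Summable (fun k : ℕ => ((1:ℝ)/2)^(k+1)) :=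
      (summable_nat_add_iff 1).mpr (summable_geometric_of_lt_one (by norm_num) (by norm_num))
    refine Summable.of_norm_bounded hg (fun k => ?_)
    rw [norm_smul]
    have : ‖((1:ℝ)/2)^(k+1)‖ = ((1:ℝ)/2)^(k+1) := by
      rw [Real.norm_eq_abs, abs_of_pos (by positivity)]
    rw [this]
    exact mul_le_of_le_one_right (by positivity) (hzn k)
  set yy : X := ∑' k, ((1:ℝ)/2)^(k+1) • z k with hyydef
  have hylim : Tendsto y atTop (𝓝 yy) := by
    have := hsumm.hasSum.tendsto_sum_nat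
    refine this.congr (fun n => (hysum n).symm)
  -- z'
  set z' : ℕ → X := fun n => (2:ℝ)^n • (yy - y n) with hz'def
  have hz'C : ∀ n, z' n ∈ C n := by
    intro n
    apply dyadic_mem (hCconv n) (hCcl n) (fun k => z (n + k))
      (fun k => hCanti n (n+k) (Nat.le_add_right n k) (hzC (n+k)))
    have h1 : Tendsto (fun m => (2:ℝ)^n • (y (m + n) - y n)) atTop (𝓝 (z' n)) := by
      apply Tendsto.const_smul
      exact ((tendsto_add_atTop_iff_nat n).mpr hylim).sub_const (y n)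
    refine h1.congr (fun m => ?_)
    induction m with
    | zero => simp
    | succ m ih =>
      rw [Finset.sum_range_succ, ← ih, show m + 1 + n = (m + n) + 1 by ring, hysucc]
      have : (2:ℝ)^n • (((1:ℝ)/2)^(m+n+1) • Z (m+n) (y (m+n))) = ((1:ℝ)/2)^(m+1) • z (n+m) := by
        rw [smul_smul]
        have e : (2:ℝ)^n * ((1:ℝ)/2)^(m+n+1) = ((1:ℝ)/2)^(m+1) := by
          rw [show m + n + 1 = n + (m+1) by ring, pow_add, ← mul_assoc, ← mul_pow]
          norm_num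
        rw [e, show n + m = m + n by ring]
      rw [← this, ← smul_add]
      congr 1
      abel
  have hz'eq : ∀ n, yy = y n + ((1:ℝ)/2)^n • z' n := by
    intro n
    simp only [hz'def]
    rw [smul_smul, ← mul_pow]
    norm_num
  have hz'succ : ∀ n, z' (n+1) = (2:ℝ) • z' n - z n := by
    intro n
    simp only [hz'def]
    rw [hysucc, smul_smul, ← pow_succ', ← sub_sub, smul_sub, smul_smul]
    have e : (2:ℝ)^(n+1) * ((1:ℝ)/2)^(n+1) = 1 := by
      rw [← mul_pow]; norm_num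
    rw [e, one_smul]
  obtain ⟨g, hg, hgξ⟩ := hsub yy
  have hstep : ∀ n, g (z' n) - ((1:ℝ)/2)^n * (α/8) ≤ g (z' (n+1)) := by
    intro n
    have h1 := hZmin n (y n) (z' n) (hz'C n)
    rw [← hz'eq n] at h1
    have h2 := hg (y n + ((1:ℝ)/2)^n • z n)
    have h3 : y n + ((1:ℝ)/2)^n • z n - yy = ((1:ℝ)/2)^n • (z n - z' n) := by
      conv_lhs => rw [hz'eq n]
      rw [smul_sub]; abel
    rw [h3, map_smul, smul_eq_mul, map_sub] at h2
    have h4 : ((1:ℝ)/2)^n * (g (z n) - g (z' n)) ≤ ((1:ℝ)/4)^n * (α/8) := by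
      have : φ yy + ((1:ℝ)/2)^n * (g (z n) - g (z' n)) ≤ φ yy + ((1:ℝ)/4)^n * (α/8) :=
        h2.trans h1
      linarith
    have h5 : ((1:ℝ)/4)^n = ((1:ℝ)/2)^n * ((1:ℝ)/2)^n := by
      rw [← mul_pow]; norm_num
    have h6 : g (z n) - g (z' n) ≤ ((1:ℝ)/2)^n * (α/8) := by
      have hpos : 0 < ((1:ℝ)/2)^n := by positivity
      rw [h5, mul_assoc] at h4
      exact le_of_mul_le_mul_left h4 hpos
    have h7 : g ((2:ℝ) • z' n) = 2 * g (z' n) := g.map_smul (2:ℝ) (z' n)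
    have h8 : g (z' (n+1)) = 2 * g (z' n) - g (z n) := by rw [hz'succ n, map_sub, h7]
    rw [h8]
    linarith
  have hlow : ∀ n, g (z' 0) - (2 - 2 * ((1:ℝ)/2)^n) * (α/8) ≤ g (z' n) := by
    intro n
    induction n with
    | zero => simp
    | succ n ih =>
      have := hstep n
      rw [pow_succ]
      nlinarith
  have hlow' : ∀ n, g yy - α / 4 ≤ g (z' n) := by
    intro n
    have h0 : z' 0 = yy := by simp [hz'def, hy0]
    have := hlow n
    rw [h0] at this
    have hpos : 0 < ((1:ℝ)/2)^n := by positivity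
    nlinarith
  -- upper bound: g (z' n) small
  have hup : g yy - α / 4 ≤ α / 8 := by
    have hev : ∀ᶠ n in atTop, g (ξ n) < α / 8 := (tendsto_order.mp hgξ).2 _ hη
    obtain ⟨N, hN⟩ := eventually_atTop.mp hev
    have hCN : C N ⊆ {w | g w ≤ α / 8} := by
      apply closedConvexHull_min
      · rintro _ ⟨k, hk, rfl⟩
        exact (hN k hk).le
      · exact convex_halfSpace_le g.isLinear (α/8)
      · exact isClosed_le g.continuous continuous_const
    exact (hlow' N).trans (hCN (hz'C N))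
  -- lower bound
  have hyyC : yy ∈ C 0 := by
    have h0 : z' 0 = yy := by simp [hz'def, hy0]
    rw [← h0]; exact hz'C 0
  have h1 : α ≤ ‖yy‖ := by
    have h2 := hCf0 0 yy hyyC
    have h3 : f0 yy ≤ ‖yy‖ := (le_abs_self _).trans ((f0.le_opNorm yy).trans
      (by nlinarith [norm_nonneg yy]))
    linarith
  have h2 := hφ1 yy
  have h3 := hg 0
  rw [zero_sub, map_neg] at h3
  linarith

end Pool.Agent.Helper56.SepDeriv
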