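import Mathlib
import Pool.Agent.Helper56.SepDeriv1
import Pool.Agent.Helper56.SepDeriv2

set_option autoImplicit false

open MeasureTheory Set Filter Topology

namespace Pool.Agent.Helper56.SepDeriv

variable {X : Type*} [NormedAddCommGroup X] [NormedSpace ℝ X]

lemma exists_point (G : ℕ → (X →L[ℝ] ℝ)) (f0 : X →L[ℝ] ℝ) (α : ℝ) (hα : 0 < α)
    (hdist : ∀ h ∈ Submodule.span ℝ (range G), α < ‖f0 - h‖) (n : ℕ) :
    ∃ x : X, ‖x‖ ≤ 1 ∧ (∀ i < n, G i x = 0) ∧ α ≤ f0 x := by
  by_contra hcon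
  push Not at hcon
  let L : Fin n → (X →ₗ[ℝ] ℝ) := fun i => (G i : X →ₗ[ℝ] ℝ)
  let M : Submodule ℝ X := ⨅ i : Fin n, LinearMap.ker (L i)
  have hM : ∀ x : X, x ∈ M ↔ ∀ i < n, G i x = 0 := by
    intro x
    simp only [M, Submodule.mem_iInf, LinearMap.mem_ker, L]
    constructor
    · intro h i hi
      exact h ⟨i, hi⟩
    · intro h i
      exact h i i.2
  let f' : M →L[ℝ] ℝ := f0.comp M.subtypeL
  have hf' : ‖f'‖ ≤ α := by
    apply ContinuousLinearMap.opNorm_le_bound _ hα.le
    rintro ⟨x, hx⟩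
    show ‖f0 x‖ ≤ α * ‖x‖
    by_cases hx0 : x = 0
    · simp [hx0]
    · have hnx : 0 < ‖x‖ := norm_pos_iff.mpr hx0
      have key : ∀ s : ℝ, |s| = 1 → s * f0 x ≤ α * ‖x‖ := by
        intro s hs
        have h1 : (s * ‖x‖⁻¹) • x ∈ M := M.smul_mem _ hx
        have h2 : ‖(s * ‖x‖⁻¹) • x‖ ≤ 1 := by
          rw [norm_smul, norm_mul, norm_inv, norm_norm, Real.norm_eq_abs, hs, one_mul,
            inv_mul_cancel₀ hnx.ne']
        have h3 := hcon _ h2 ((hM _).mp h1)
        rw [map_smul, smul_eq_mul] at h3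
        have h4 : s * f0 x = (s * ‖x‖⁻¹ * f0 x) * ‖x‖ := by field_simp
        rw [h4]
        exact mul_le_mul_of_nonneg_right h3.le hnx.le
      rw [Real.norm_eq_abs, abs_le]
      have k1 := key 1 (by simp)
      have k2 := key (-1) (by simp)
      constructor <;> linarith
  obtain ⟨g, hg1, hg2⟩ := exists_extension_norm_eq (𝕜 := ℝ) M f'
  have hker : ⨅ i, LinearMap.ker (L i) ≤ LinearMap.ker ((f0 - g : X →L[ℝ] ℝ) : X →ₗ[ℝ] ℝ) := by
    intro x hx
    rw [LinearMap.mem_ker]
    have := hg1 ⟨x, hx⟩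
    show f0 x - g x = 0
    have h2 : f' ⟨x, hx⟩ = f0 x := rfl
    rw [h2] at this
    have h3 : g x = f0 x := this
    rw [h3, sub_self]
  have hspan := mem_span_of_iInf_ker_le_ker hker
  obtain ⟨c, hc⟩ := (Submodule.mem_span_range_iff_exists_fun ℝ).1 hspan
  have heq : f0 - g = ∑ i : Fin n, c i • G i := by
    ext x
    have := LinearMap.congr_fun hc x
    simp only [LinearMap.coe_sum, Finset.sum_apply, LinearMap.smul_apply, smul_eq_mul] at this
    have h3 : (f0 - g) x = ∑ i : Fin n, c i * (L i x) := this.symm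
    rw [h3]
    simp [L]
  have hmem : f0 - g ∈ Submodule.span ℝ (range G) := by
    rw [heq]
    exact Submodule.sum_mem _ (fun i _ => Submodule.smul_mem _ _ (Submodule.subset_span ⟨i, rfl⟩))
  have := hdist _ hmem
  rw [sub_sub_cancel] at this
  linarith [hg2.le.trans hf']

variable [CompleteSpace X]

lemma ae_gateaux (h : ℕ → X) (hh : Summable (fun n => ‖h n‖)) (u : ℕ → X) (hu : DenseRange u)
    (c : ℕ → ℝ) (hc : ∀ n, c n ≠ 0) (hcu : ∀ n, h n = c n • u n) (hnt : ∃ n, u n ≠ 0) (x : X) :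
    ∀ᵐ t ∂mu, ∃ f : X →L[ℝ] ℝ, ‖f‖ ≤ 1 ∧ f (x + W h t) = ‖x + W h t‖ ∧
      (∀ v, HasLineDerivAt ℝ (fun y : X => ‖y‖) (f v) (x + W h t) v) ∧ f ∈ DD X := by
  have h1 : ∀ᵐ t ∂mu, ∀ n, LineDifferentiableAt ℝ (fun y : X => ‖y‖) (x + W h t) (h n) :=
    ae_all_iff.mpr (fun n => ae_lineDiff h hh x n)
  filter_upwards [h1] with t ht
  have h2 : ∀ n, LineDifferentiableAt ℝ (fun y : X => ‖y‖) (x + W h t) (u n) := by
    intro n
    apply lineDiff_of_smul (hc n)
    rw [← hcu n]
    exact ht n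
  obtain ⟨f, hf1, hf2, hf3⟩ := gateaux_of_dense (x + W h t) u hu h2
  obtain ⟨n, hn⟩ := hnt
  exact ⟨f, hf1, hf2, hf3, mem_DD_of_ne_zero (ne_zero_of_lineDiff hn (h2 n)) hf3⟩

lemma exists_subgradient (h : ℕ → X) (hh : Summable (fun n => ‖h n‖))
    (hae : ∀ x : X, ∀ᵐ t ∂mu, ∃ f : X →L[ℝ] ℝ, ‖f‖ ≤ 1 ∧ f (x + W h t) = ‖x + W h t‖ ∧
      (∀ v, HasLineDerivAt ℝ (fun y : X => ‖y‖) (f v) (x + W h t) v) ∧ f ∈ DD X)
    (ξ : ℕ → X) (hξ : ∀ n, ‖ξ n‖ ≤ 1)
    (hD : ∀ f ∈ DD X, Tendsto (fun n => f (ξ n)) atTop (𝓝 0)) (y : X) :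
    ∃ g : X →L[ℝ] ℝ, (∀ x, (∫ t, ‖y + W h t‖ ∂mu) + g (x - y) ≤ ∫ t, ‖x + W h t‖ ∂mu) ∧
      Tendsto (fun n => g (ξ n)) atTop (𝓝 0) := by
  borelize X
  let Ld : Om → X → ℝ := fun t v => lineDeriv ℝ (fun y : X => ‖y‖) (y + W h t) v
  have hLd : ∀ᵐ t ∂mu, ∃ f : X →L[ℝ] ℝ, ‖f‖ ≤ 1 ∧ f (y + W h t) = ‖y + W h t‖ ∧
      (∀ v, Ld t v = f v) ∧ f ∈ DD X := by
    filter_upwards [hae y] with t ht
    obtain ⟨f, h1, h2, h3, h4⟩ := ht
    exact ⟨f, h1, h2, fun v => (h3 v).lineDeriv, h4⟩
  have hmeas : ∀ v, Measurable (fun t => Ld t v) := by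
    intro v
    have h2 : Measurable (fun t : Om => y + W h t) :=
      (continuous_const.add (continuous_W h hh)).measurable
    have h3 : Measurable (fun z : X => lineDeriv ℝ (fun y : X => ‖y‖) z v) :=
      measurable_lineDeriv continuous_norm
    exact h3.comp h2
  have hbd : ∀ v, ∀ᵐ t ∂mu, ‖Ld t v‖ ≤ ‖v‖ := by
    intro v
    filter_upwards [hLd] with t ht
    obtain ⟨f, h1, h2, h3, h4⟩ := ht
    rw [h3]
    exact (f.le_opNorm v).trans (mul_le_of_le_one_left (norm_nonneg _) h1)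
  have hint : ∀ v, Integrable (fun t => Ld t v) mu := by
    intro v
    exact Integrable.of_bound (hmeas v).aestronglyMeasurable ‖v‖ (hbd v)
  let gl : X →ₗ[ℝ] ℝ :=
    { toFun := fun v => ∫ t, Ld t v ∂mu
      map_add' := by
        intro v w
        rw [← integral_add (hint v) (hint w)]
        apply integral_congr_ae
        filter_upwards [hLd] with t ht
        obtain ⟨f, h1, h2, h3, h4⟩ := ht
        rw [h3, h3, h3, map_add]
      map_smul' := by
        intro r v
        simp only [RingHom.id_apply, smul_eq_mul]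
        rw [← integral_const_mul]
        apply integral_congr_ae
        filter_upwards [hLd] with t ht
        obtain ⟨f, h1, h2, h3, h4⟩ := ht
        rw [h3, h3, map_smul, smul_eq_mul] }
  have hglbd : ∀ v, ‖gl v‖ ≤ 1 * ‖v‖ := by
    intro v
    rw [one_mul]
    have := norm_integral_le_of_norm_le_const (μ := mu) (hbd v)
    rw [probReal_univ, mul_one] at this
    exact this
  let g : X →L[ℝ] ℝ := gl.mkContinuous 1 hglbd
  have hgdef : ∀ v, g v = ∫ t, Ld t v ∂mu := fun v => rfl
  have hintn : ∀ x : X, Integrable (fun t => ‖x + W h t‖) mu := by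
    intro x
    have hcont : Continuous (fun t : Om => ‖x + W h t‖) :=
      (continuous_const.add (continuous_W h hh)).norm
    refine Integrable.of_bound hcont.measurable.aestronglyMeasurable (‖x‖ + ∑' n, ‖h n‖)
      (Filter.Eventually.of_forall (fun t => ?_))
    rw [norm_norm]
    exact (norm_add_le _ _).trans (add_le_add le_rfl (norm_W_le h hh t))
  refine ⟨g, ?_, ?_⟩
  · intro x
    rw [hgdef, ← integral_add (hintn y) (hint (x - y))]
    apply integral_mono_ae ((hintn y).add (hint (x - y))) (hintn x)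
    filter_upwards [hLd] with t ht
    obtain ⟨f, h1, h2, h3, h4⟩ := ht
    show ‖y + W h t‖ + Ld t (x - y) ≤ ‖x + W h t‖
    rw [h3, ← h2, ← map_add]
    have e : y + W h t + (x - y) = x + W h t := by abel
    rw [e]
    exact (le_abs_self _).trans ((f.le_opNorm _).trans
      (mul_le_of_le_one_left (norm_nonneg _) h1))
  · have := tendsto_integral_of_dominated_convergence (μ := mu)
      (F := fun n t => Ld t (ξ n)) (f := fun _ => (0:ℝ)) (bound := fun _ => (1:ℝ))
      (fun n => (hmeas (ξ n)).aestronglyMeasurable) (integrable_const 1)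
      (fun n => by
        filter_upwards [hbd (ξ n)] with t ht
        exact ht.trans (hξ n))
      (by
        filter_upwards [hLd] with t ht
        obtain ⟨f, h1, h2, h3, h4⟩ := ht
        simp only [h3]
        exact hD f h4)
    simp only [integral_zero] at this
    exact this

theorem main [TopologicalSpace.SeparableSpace X] (hD : TopologicalSpace.IsSeparable (DD X)) :
    TopologicalSpace.SeparableSpace (X →L[ℝ] ℝ) := by
  obtain ⟨t, htD, htc, htcl⟩ := hD.exists_countable_dense_subset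
  obtain ⟨G, hG⟩ := (htc.insert (0 : X →L[ℝ] ℝ)).exists_eq_range (insert_nonempty _ _)
  by_cases hS : ∀ f : X →L[ℝ] ℝ, f ∈ closure (Submodule.span ℝ (range G) : Set (X →L[ℝ] ℝ))
  · have h1 : TopologicalSpace.IsSeparable (range G) := by
      rw [← hG]; exact (htc.insert _).isSeparable
    have h2 : TopologicalSpace.IsSeparable
        (closure (Submodule.span ℝ (range G) : Set (X →L[ℝ] ℝ))) := (h1.span (R := ℝ)).closure
    have h3 : closure (Submodule.span ℝ (range G) : Set (X →L[ℝ] ℝ)) = univ :=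
      eq_univ_of_forall hS
    rw [h3] at h2
    exact TopologicalSpace.isSeparable_univ_iff.mp h2
  · exfalso
    push Not at hS
    obtain ⟨f1, hf1⟩ := hS
    rw [Metric.mem_closure_iff] at hf1
    push Not at hf1
    obtain ⟨ε, hε, hf1⟩ := hf1
    have hf1n : 0 < ‖f1‖ := by
      have := hf1 0 (Submodule.zero_mem _)
      rw [dist_zero_right] at this
      linarith
    set f0 : X →L[ℝ] ℝ := ‖f1‖⁻¹ • f1 with hf0def
    have hf0 : ‖f0‖ ≤ 1 := by
      rw [hf0def, norm_smul, norm_inv, norm_norm, inv_mul_cancel₀ hf1n.ne']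
    set α : ℝ := ε / (2 * ‖f1‖) with hαdef
    have hα : 0 < α := by positivity
    have hdist : ∀ h ∈ Submodule.span ℝ (range G), α < ‖f0 - h‖ := by
      intro h hh
      have h1 := hf1 (‖f1‖ • h) (Submodule.smul_mem _ _ hh)
      rw [dist_eq_norm] at h1
      have h2 : f0 - h = ‖f1‖⁻¹ • (f1 - ‖f1‖ • h) := by
        rw [smul_sub, smul_smul, inv_mul_cancel₀ hf1n.ne', one_smul]
      rw [h2, norm_smul, norm_inv, norm_norm]
      have h3 : ‖f1‖⁻¹ * ε ≤ ‖f1‖⁻¹ * ‖f1 - ‖f1‖ • h‖ :=
        mul_le_mul_of_nonneg_left h1 (by positivity)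
      refine lt_of_lt_of_le ?_ h3
      rw [hαdef, div_lt_iff₀ (by positivity)]
      have : ‖f1‖⁻¹ * ε * (2 * ‖f1‖) = 2 * ε := by field_simp
      rw [this]; linarith
    choose ξ hξ1 hξ2 hξ3 using fun n => exists_point G f0 α hα hdist n
    have hDξ : ∀ f ∈ DD X, Tendsto (fun n => f (ξ n)) atTop (𝓝 0) := by
      intro f hf
      have hfcl : f ∈ closure t := htcl hf
      rw [Metric.tendsto_atTop]
      intro ε' hε'
      obtain ⟨f2, hf2t, hf2⟩ := Metric.mem_closure_iff.mp hfcl ε' hε'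
      have : f2 ∈ range G := by rw [← hG]; exact mem_insert_of_mem _ hf2t
      obtain ⟨i, rfl⟩ := this
      refine ⟨i + 1, fun n hn => ?_⟩
      rw [dist_zero_right]
      have h1 : G i (ξ n) = 0 := hξ2 n i (by omega)
      have h2 : f (ξ n) = (f - G i) (ξ n) := by
        rw [sub_apply, h1, sub_zero]
      rw [h2]
      rw [dist_eq_norm] at hf2
      refine lt_of_le_of_lt ((f - G i).le_opNorm (ξ n)) ?_
      exact lt_of_le_of_lt (mul_le_of_le_one_right (norm_nonneg _) (hξ1 n)) hf2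
    have hne : Nonempty X := ⟨0⟩
    let u : ℕ → X := TopologicalSpace.denseSeq X
    have hu : DenseRange u := TopologicalSpace.denseRange_denseSeq X
    have hnt : ∃ n, u n ≠ 0 := by
      by_contra hcon
      push Not at hcon
      have h1 : f0 (ξ 0) = 0 := by
        have h2 : range u ⊆ {x | f0 x = 0} := by
          rintro _ ⟨n, rfl⟩
          simp [hcon n]
        have h3 : closure (range u) ⊆ {x | f0 x = 0} :=
          closure_minimal h2 (isClosed_eq f0.continuous continuous_const)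
        exact h3 (by rw [hu.closure_range]; trivial)
      have := hξ3 0
      linarith
    have hδ : 0 < α / 8 := by positivity
    let c : ℕ → ℝ := fun n => (α/8) * ((1:ℝ)/2)^(n+1) / (‖u n‖ + 1)
    have hc : ∀ n, 0 < c n := fun n => by
      have := norm_nonneg (u n)
      positivity
    let h : ℕ → X := fun n => c n • u n
    have hnorm : ∀ n, ‖h n‖ ≤ (α/8) * ((1:ℝ)/2)^(n+1) := by
      intro n
      show ‖c n • u n‖ ≤ _
      rw [norm_smul, Real.norm_eq_abs, abs_of_pos (hc n)]
      show (α/8) * ((1:ℝ)/2)^(n+1) / (‖u n‖ + 1) * ‖u n‖ ≤ _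
      have h0 := norm_nonneg (u n)
      rw [div_mul_eq_mul_div, div_le_iff₀ (by positivity)]
      apply mul_le_mul_of_nonneg_left (by linarith) (by positivity)
    have hs : Summable (fun n : ℕ => (α/8) * ((1:ℝ)/2)^(n+1)) := by
      apply Summable.mul_left
      exact (summable_nat_add_iff 1).mpr (summable_geometric_of_lt_one (by norm_num) (by norm_num))
    have hh : Summable (fun n => ‖h n‖) :=
      Summable.of_nonneg_of_le (fun n => norm_nonneg _) hnorm hs
    have hsum : ∑' n, ‖h n‖ ≤ α / 8 := by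
      have h1 : ∑' n, ‖h n‖ ≤ ∑' n : ℕ, (α/8) * ((1:ℝ)/2)^(n+1) :=
        hh.tsum_le_tsum hnorm hs
      have h2 : ∑' n : ℕ, (α/8) * ((1:ℝ)/2)^(n+1) = α/8 := by
        rw [tsum_mul_left]
        have h3 : ∑' n : ℕ, ((1:ℝ)/2)^(n+1) = 1 := by
          have h4 : (fun n : ℕ => ((1:ℝ)/2)^(n+1)) = (fun n : ℕ => 1 / 2 / 2 ^ n) := by
            funext n
            rw [pow_succ, one_div_pow]
            field_simp
          rw [h4]
          exact tsum_geometric_two' 1
        rw [h3, mul_one]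
      linarith
    have hae := fun x => ae_gateaux h hh u hu c (fun n => (hc n).ne') (fun n => rfl) hnt x
    have hintn : ∀ x : X, Integrable (fun t => ‖x + W h t‖) mu := by
      intro x
      borelize X
      have hcont : Continuous (fun t : Om => ‖x + W h t‖) :=
        (continuous_const.add (continuous_W h hh)).norm
      refine Integrable.of_bound hcont.measurable.aestronglyMeasurable (‖x‖ + ∑' n, ‖h n‖)
        (Filter.Eventually.of_forall (fun t => ?_))
      rw [norm_norm]
      exact (norm_add_le _ _).trans (add_le_add le_rfl (norm_W_le h hh t))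
    refine simons_type (fun x => ∫ t, ‖x + W h t‖ ∂mu) (α/8) α hα (by linarith)
      (fun x => integral_nonneg (fun t => norm_nonneg _)) ?_ ?_ ξ hξ1 f0 hf0 hξ3
      (fun y => exists_subgradient h hh hae ξ hξ1 hDξ y)
    · intro x
      have h1 : ∫ _t : Om, (‖x‖ - α/8) ∂mu ≤ ∫ t, ‖x + W h t‖ ∂mu := by
        apply integral_mono (integrable_const _) (hintn x)
        intro t
        have h2 := norm_W_le h hh t
        have h3 := norm_sub_le (x + W h t) (W h t)
        rw [add_sub_cancel_right] at h3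
        show ‖x‖ - α/8 ≤ ‖x + W h t‖
        linarith
      simp only [integral_const, probReal_univ, smul_eq_mul, one_mul] at h1
      linarith
    · have h1 : ∫ t, ‖(0:X) + W h t‖ ∂mu ≤ ∫ _t : Om, (α/8) ∂mu := by
        apply integral_mono (hintn 0) (integrable_const _)
        intro t
        have h2 := norm_W_le h hh t
        show ‖(0:X) + W h t‖ ≤ α/8
        rw [zero_add]
        linarith
      simpa only [integral_const, probReal_univ, smul_eq_mul, one_mul] using h1

end Pool.Agent.Helper56.SepDeriv
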